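import Pool.Agent.Lib.P267408.L1

set_option autoImplicit false

open MeasureTheory ProbabilityTheory Filter Topology

namespace Pool.Agent.Results.MP_267408_pr.MeanConvergence

/-- The values of the semidefinite program which defines the Lovász number of `G`. -/
def values {n : ℕ} (G : SimpleGraph (Fin n)) : Set ℝ :=
  {s : ℝ | ∃ X : Matrix (Fin n) (Fin n) ℝ, X.PosSemidef ∧ X.trace = 1 ∧
    (∀ i j, G.Adj i j → X i j = 0) ∧ s = ∑ i, ∑ j, X i j}

/-- The Lovász number. -/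
noncomputable def lovasz {n : ℕ} (G : SimpleGraph (Fin n)) : ℝ := sSup (values G)

/-- `G` is a random graph `G(n,1/2)`: the events that the pairs `i < j` are edges are measurable, independent and
of probability `1/2`. -/
def IsGnHalf {Ω : Type*} [MeasurableSpace Ω] {n : ℕ} (μ : Measure Ω) (G : Ω → SimpleGraph (Fin n)) : Prop :=
  (∀ p : {p : Fin n × Fin n // p.1 < p.2}, MeasurableSet {ω | (G ω).Adj p.1.1 p.1.2}) ∧
    iIndepSet (fun p : {p : Fin n × Fin n // p.1 < p.2} => {ω | (G ω).Adj p.1.1 p.1.2}) μ ∧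
      ∀ p : {p : Fin n × Fin n // p.1 < p.2}, μ {ω | (G ω).Adj p.1.1 p.1.2} = 1 / 2

/-- The Lovász number of a nonempty graph is a maximum.  For random graphs `G n = G(n,1/2)`: the expectation of
`ϑ(G n) / √n` tends to `1`, and `ϑ(G n) / √n` and `ϑ` of the complement divided by `√n` tend to `1` in `L¹` and in
probability. -/
theorem result :
    (∀ n : ℕ, 1 ≤ n → ∀ H : SimpleGraph (Fin n), IsGreatest (values H) (lovasz H)) ∧
    ∀ (Ω : ℕ → Type) [∀ n, MeasurableSpace (Ω n)] (μ : ∀ n, Measure (Ω n)) [∀ n, IsProbabilityMeasure (μ n)]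
      (G : ∀ n, Ω n → SimpleGraph (Fin n)), (∀ n, IsGnHalf (μ n) (G n)) →
      Tendsto (fun n => (∫ ω, lovasz (G n ω) ∂μ n) / Real.sqrt n) atTop (𝓝 1) ∧
      Tendsto (fun n => ∫ ω, |lovasz (G n ω) / Real.sqrt n - 1| ∂μ n) atTop (𝓝 0) ∧
      Tendsto (fun n => ∫ ω, |lovasz (G n ω)ᶜ / Real.sqrt n - 1| ∂μ n) atTop (𝓝 0) ∧
      ∀ ε : ℝ, 0 < ε → Tendsto (fun n => (μ n).real {ω | ε ≤ |lovasz (G n ω) / Real.sqrt n - 1|}) atTop (𝓝 0) := by
  refine ⟨fun n hn H => Pool.Agent.Lib.P267408.thG_isGreatest hn H, fun Ω _ μ _ G hG => ?_⟩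
  exact Pool.Agent.Lib.P267408.limits μ G hG

end Pool.Agent.Results.MP_267408_pr.MeanConvergence
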